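import Pool.Agent.X262.ZO.Lin

/-!
# The converse implications, and the finiteness of near relations
-/

set_option autoImplicit false

namespace Pool.Agent.X262.ZO

open Filter

/-- a nontrivial integer relation between `1, ξ, t` -/
def Rel (ξ t : ℝ) : Prop :=
  ∃ a b c : ℤ, (a ≠ 0 ∨ b ≠ 0 ∨ c ≠ 0) ∧ (a : ℝ) + b * ξ + c * t = 0

lemma rel_iff (ξ t : ℝ) : ¬ LinearIndependent ℚ ![(1 : ℝ), ξ, t] ↔ Rel ξ t := by
  rw [← LinearIndependent.iff_fractionRing ℤ ℚ, Fintype.linearIndependent_iff]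
  push Not
  constructor
  · rintro ⟨g, hg, i, hi⟩
    refine ⟨g 0, g 1, g 2, ?_, ?_⟩
    · fin_cases i
      · exact Or.inl hi
      · exact Or.inr (Or.inl hi)
      · exact Or.inr (Or.inr hi)
    · rw [Fin.sum_univ_three] at hg
      simp only [zsmul_eq_mul] at hg
      simpa using hg
  · rintro ⟨a, b, c, hne, h⟩
    refine ⟨![a, b, c], ?_, ?_⟩
    · rw [Fin.sum_univ_three]
      simp only [zsmul_eq_mul]
      simpa using h
    · rcases hne with h | h | h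
      · exact ⟨0, h⟩
      · exact ⟨1, h⟩
      · exact ⟨2, h⟩

/-- in a relation the last coefficient is not zero -/
lemma last_ne {ξ t : ℝ} (hξ : Meas1 ξ) {a b c : ℤ} (hne : a ≠ 0 ∨ b ≠ 0 ∨ c ≠ 0)
    (h : (a : ℝ) + b * ξ + c * t = 0) : c ≠ 0 := by
  intro hc
  have h1 : (a : ℝ) + b * ξ ≠ 0 := hξ.ne (by
    rcases hne with h | h | h
    · exact Or.inl h
    · exact Or.inr h
    · exact absurd hc h)
  apply h1
  rw [hc] at h
  push_cast at h
  linarith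

theorem rel_sim {ξ t : ℝ} (hξ : Meas1 ξ) (h : Rel ξ t) (τ : ℝ) (hτ : τ < 1) : UnifSim ξ t τ := by
  obtain ⟨a, b, c, hne, hrel⟩ := h
  have hc := last_ne hξ hne hrel
  have hcR : (1 : ℝ) ≤ |(c : ℝ)| := by
    have := Int.one_le_abs hc
    exact_mod_cast this
  obtain ⟨K, hK⟩ : ∃ K, K = |(c : ℝ)| * |(c : ℝ)| + |(b : ℝ)| * |(c : ℝ)| := ⟨_, rfl⟩
  have h1 : ∀ᶠ Q : ℝ in atTop, K ≤ Q ^ (1 - τ) :=
    (tendsto_rpow_atTop (by linarith : 0 < 1 - τ)).eventually (eventually_ge_atTop _)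
  unfold UnifSim
  filter_upwards [h1, eventually_ge_atTop |(c : ℝ)|] with Q hQ hQc
  have hQ0 : 0 < Q := by linarith
  obtain ⟨n, hn⟩ : ∃ n, n = ⌊Q / |(c : ℝ)|⌋₊ := ⟨_, rfl⟩
  have hn1 : 1 ≤ n := by
    rw [hn]
    apply Nat.le_floor
    rw [Nat.cast_one, le_div_iff₀ (by linarith)]
    linarith
  have hn2 : (n : ℝ) ≤ Q / |(c : ℝ)| := hn ▸ Nat.floor_le (by positivity)
  have hn3 : Q / |(c : ℝ)| < (n : ℝ) + 1 := hn ▸ Nat.lt_floor_add_one _
  obtain ⟨j, k, hk0, hkn, hjk⟩ := Real.exists_int_int_abs_mul_sub_le ξ (by omega : 0 < n)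
  have h3 : |(k : ℝ) * ξ - j| ≤ |(c : ℝ)| / Q := by
    refine hjk.trans ?_
    rw [div_le_div_iff₀ (by positivity) hQ0]
    rw [div_lt_iff₀ (by linarith)] at hn3
    linarith
  have h4 : K / Q ≤ Q ^ (-τ) := by
    rw [div_le_iff₀ hQ0]
    refine hQ.trans (le_of_eq ?_)
    rw [show (1 : ℝ) - τ = -τ + 1 by ring, Real.rpow_add hQ0, Real.rpow_one]
  have hs : ((c.sign : ℤ) : ℝ) * c = |(c : ℝ)| := by
    have := Int.sign_mul_self_eq_abs c
    exact_mod_cast this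
  have hs1 : |((c.sign : ℤ) : ℝ)| = 1 := by
    rcases lt_or_gt_of_ne hc with h | h
    · rw [Int.sign_eq_neg_one_of_neg h]
      norm_num
    · rw [Int.sign_eq_one_of_pos h]
      norm_num
  refine ⟨|c| * k, |c| * j, -(c.sign * (k * a + b * j)), ?_, ?_, ?_, ?_⟩
  · have := Int.one_le_abs hc
    nlinarith
  · push_cast
    have hkR : (k : ℝ) ≤ n := by exact_mod_cast hkn
    have h5 := hkR.trans hn2
    rw [le_div_iff₀ (by linarith)] at h5
    linarith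
  · push_cast
    rw [show |(c : ℝ)| * k * ξ - |(c : ℝ)| * j = |(c : ℝ)| * (k * ξ - j) by ring, abs_mul, abs_abs]
    refine le_trans ?_ h4
    calc |(c : ℝ)| * |(k : ℝ) * ξ - j| ≤ |(c : ℝ)| * (|(c : ℝ)| / Q) :=
          mul_le_mul_of_nonneg_left h3 (abs_nonneg _)
      _ = |(c : ℝ)| * |(c : ℝ)| / Q := by ring
      _ ≤ K / Q := by
          apply div_le_div_of_nonneg_right _ hQ0.le
          rw [hK]
          have : 0 ≤ |(b : ℝ)| * |(c : ℝ)| := by positivity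
          linarith
  · push_cast
    have h5 : |(c : ℝ)| * k * t - -(((c.sign : ℤ) : ℝ) * (k * a + b * j)) =
        -(((c.sign : ℤ) : ℝ) * (b * (k * ξ - j))) := by
      rw [← hs]
      linear_combination ((c.sign : ℤ) : ℝ) * k * hrel
    rw [h5, abs_neg, abs_mul, hs1, one_mul, abs_mul]
    refine le_trans ?_ h4
    calc |(b : ℝ)| * |(k : ℝ) * ξ - j| ≤ |(b : ℝ)| * (|(c : ℝ)| / Q) :=
          mul_le_mul_of_nonneg_left h3 (abs_nonneg _)
      _ = |(b : ℝ)| * |(c : ℝ)| / Q := by ring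
      _ ≤ K / Q := by
          apply div_le_div_of_nonneg_right _ hQ0.le
          rw [hK]
          have : 0 ≤ |(c : ℝ)| * |(c : ℝ)| := by positivity
          linarith

theorem rel_lin {ξ t : ℝ} (h : Rel ξ t) (τ : ℝ) : UnifLin ξ t τ := by
  obtain ⟨a, b, c, hne, hrel⟩ := h
  unfold UnifLin
  filter_upwards [eventually_ge_atTop |(a : ℝ)|, eventually_ge_atTop |(b : ℝ)|,
    eventually_ge_atTop |(c : ℝ)|, eventually_gt_atTop 0] with H ha hb hc h0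
  refine ⟨a, b, c, hne, ha, hb, hc, ?_⟩
  rw [hrel, abs_zero]
  positivity

/-- the near relations of exponent `1 + δ` are finite in number -/
def FinNear (ξ t δ : ℝ) : Prop :=
  {v : ℤ × ℤ × ℤ | (v.1 : ℝ) + v.2.1 * ξ + v.2.2 * t ≠ 0 ∧
    |(v.1 : ℝ) + v.2.1 * ξ + v.2.2 * t| ≤ (HH v : ℝ) ^ (-(1 + δ))}.Finite

theorem rel_fin {ξ t : ℝ} (hξ : Meas1 ξ) (h : Rel ξ t) (δ : ℝ) (hδ : 0 < δ) : FinNear ξ t δ := by
  obtain ⟨a0, b0, c0, hne, hrel⟩ := h
  have hc := last_ne hξ hne hrel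
  obtain ⟨κ, hκ, hκ2⟩ := hξ (δ / 2) (by positivity)
  obtain ⟨h01, h02, h03⟩ := HH_le (a0, b0, c0)
  simp only at h01 h02 h03
  have hH0 : (1 : ℝ) ≤ HH (a0, b0, c0) := by
    exact_mod_cast HH_pos (by
      intro h0
      simp only [Prod.mk_eq_zero] at h0
      exact hc h0.2.2)
  obtain ⟨H0, hH0'⟩ : ∃ H0 : ℝ, H0 = HH (a0, b0, c0) := ⟨_, rfl⟩
  rw [← hH0'] at h01 h02 h03 hH0
  obtain ⟨K, hK⟩ : ∃ K, K = (2 * H0) ^ (1 + δ / 2) * H0 / κ := ⟨_, rfl⟩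
  have h1 : ∀ᶠ n : ℕ in atTop, K < (n : ℝ) ^ (δ / 2) :=
    ((tendsto_rpow_atTop (by positivity : 0 < δ / 2)).comp
      (tendsto_natCast_atTop_atTop (R := ℝ))).eventually (eventually_gt_atTop _)
  obtain ⟨N0, hN0⟩ := eventually_atTop.1 h1
  refine ((Set.finite_Icc (-(N0 : ℤ)) N0).prod ((Set.finite_Icc (-(N0 : ℤ)) N0).prod
      (Set.finite_Icc (-(N0 : ℤ)) N0))).subset ?_
  rintro ⟨a, b, c⟩ ⟨hv, hv2⟩
  simp only at hv hv2
  have hlt : HH (a, b, c) < N0 := by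
    by_contra hcon
    push Not at hcon
    have h2 := hN0 _ hcon
    have hv0 : (a, b, c) ≠ (0 : ℤ × ℤ × ℤ) := by
      intro h0
      simp only [Prod.mk_eq_zero] at h0
      apply hv
      rw [h0.1, h0.2.1, h0.2.2]
      simp
    have hH1 : (1 : ℝ) ≤ HH (a, b, c) := by exact_mod_cast HH_pos hv0
    obtain ⟨g1, g2, g3⟩ := HH_le (a, b, c)
    simp only at g1 g2 g3
    obtain ⟨H, hH⟩ : ∃ H : ℝ, H = HH (a, b, c) := ⟨_, rfl⟩
    rw [← hH] at g1 g2 g3 hH1 hv2 h2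
    have hval : ((c0 * a - c * a0 : ℤ) : ℝ) + ((c0 * b - c * b0 : ℤ) : ℝ) * ξ =
        c0 * (a + b * ξ + c * t) := by
      push_cast
      linear_combination (-(c : ℝ)) * hrel
    have hcR : (c0 : ℝ) ≠ 0 := by exact_mod_cast hc
    have hAB : (c0 * a - c * a0) ≠ 0 ∨ (c0 * b - c * b0) ≠ 0 := by
      by_contra hh
      push Not at hh
      rw [hh.1, hh.2] at hval
      push_cast at hval
      have h5 : (c0 : ℝ) * (a + b * ξ + c * t) = 0 := by linarith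
      rcases mul_eq_zero.1 h5 with h | h
      · exact hcR h
      · exact hv h
    have hp : ∀ x y : ℝ, |x| ≤ H0 → |y| ≤ H → |x * y| ≤ H0 * H := fun x y hx hy => by
      rw [abs_mul]
      exact mul_le_mul hx hy (abs_nonneg _) (by linarith)
    have k1 : |((c0 * a - c * a0 : ℤ) : ℝ)| ≤ 2 * H0 * H := by
      push_cast
      have e1 := abs_sub ((c0 : ℝ) * a) (c * a0)
      have e2 := hp _ _ h03 g1
      have e3 := hp _ _ h01 g3
      rw [mul_comm (a0 : ℝ)] at e3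
      linarith
    have k2 : |((c0 * b - c * b0 : ℤ) : ℝ)| ≤ 2 * H0 * H := by
      push_cast
      have e1 := abs_sub ((c0 : ℝ) * b) (c * b0)
      have e2 := hp _ _ h03 g2
      have e3 := hp _ _ h02 g3
      rw [mul_comm (b0 : ℝ)] at e3
      linarith
    have k3 := hκ2 _ _ hAB (2 * H0 * H) (by nlinarith) k1 k2
    rw [hval, abs_mul] at k3
    have k4 : |(c0 : ℝ)| * |(a : ℝ) + b * ξ + c * t| ≤ H0 * H ^ (-(1 + δ)) :=
      mul_le_mul h03 hv2 (abs_nonneg _) (by linarith)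
    have k5 : κ ≤ (2 * H0 * H) ^ (1 + δ / 2) * (H0 * H ^ (-(1 + δ))) :=
      k3.trans (mul_le_mul_of_nonneg_left k4 (by positivity))
    have k6 : (2 * H0 * H) ^ (1 + δ / 2) * (H0 * H ^ (-(1 + δ))) =
        (2 * H0) ^ (1 + δ / 2) * H0 * H ^ (-(δ / 2)) := by
      have e1 : H ^ (-(δ / 2)) = H ^ (1 + δ / 2) * H ^ (-(1 + δ)) := by
        rw [← Real.rpow_add (by positivity)]
        congr 1
        ring
      rw [Real.mul_rpow (by positivity) (by positivity), e1]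
      ring
    rw [k6, Real.rpow_neg (by positivity)] at k5
    have k7 : 0 < H ^ (δ / 2) := by positivity
    rw [hK, div_lt_iff₀ hκ] at h2
    have k8 := mul_le_mul_of_nonneg_right k5 k7.le
    rw [mul_assoc _ (H ^ (δ / 2))⁻¹, inv_mul_cancel₀ k7.ne', mul_one] at k8
    linarith
  unfold HH at hlt
  simp only at hlt
  simp only [Set.mem_prod, Set.mem_Icc]
  omega

/-- Dirichlet's theorem for linear forms in `1, ξ, t` -/
theorem dirichlet (ξ t : ℝ) (n : ℕ) (hn : 1 ≤ n) : ∃ a b c : ℤ, (b ≠ 0 ∨ c ≠ 0) ∧ |b| ≤ n ∧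
    |c| ≤ n ∧ |(a : ℝ) + b * ξ + c * t| < 1 / (n : ℝ) ^ 2 := by
  classical
  have hn0 : (0 : ℝ) < (n : ℝ) ^ 2 := by positivity
  obtain ⟨x, hx, y, hy, hxy, hf⟩ := Finset.exists_ne_map_eq_of_card_lt_of_maps_to
    (s := Finset.range (n + 1) ×ˢ Finset.range (n + 1)) (t := Finset.range (n ^ 2))
    (f := fun p : ℕ × ℕ => ⌊Int.fract ((p.1 : ℝ) * ξ + p.2 * t) * (n : ℝ) ^ 2⌋₊)
    (by
      rw [Finset.card_product, Finset.card_range, Finset.card_range]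
      nlinarith)
    (by
      intro p _
      simp only [Finset.coe_range, Set.mem_Iio]
      rw [Nat.floor_lt (by have := Int.fract_nonneg ((p.1 : ℝ) * ξ + p.2 * t); positivity)]
      push_cast
      have := Int.fract_lt_one ((p.1 : ℝ) * ξ + p.2 * t)
      nlinarith)
  obtain ⟨i, j⟩ := x
  obtain ⟨i', j'⟩ := y
  simp only [Finset.mem_product, Finset.mem_range] at hx hy
  simp only at hf
  refine ⟨-(⌊(i : ℝ) * ξ + j * t⌋ - ⌊(i' : ℝ) * ξ + j' * t⌋), (i : ℤ) - i', (j : ℤ) - j', ?_, ?_,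
    ?_, ?_⟩
  · by_contra hh
    push Not at hh
    apply hxy
    have h1 : i = i' := by omega
    have h2 : j = j' := by omega
    rw [h1, h2]
  · rw [abs_le]
    constructor <;> omega
  · rw [abs_le]
    constructor <;> omega
  · have h1 : ((-(⌊(i : ℝ) * ξ + j * t⌋ - ⌊(i' : ℝ) * ξ + j' * t⌋) : ℤ) : ℝ) +
        (((i : ℤ) - i' : ℤ) : ℝ) * ξ + (((j : ℤ) - j' : ℤ) : ℝ) * t =
        Int.fract ((i : ℝ) * ξ + j * t) - Int.fract ((i' : ℝ) * ξ + j' * t) := by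
      unfold Int.fract
      push_cast
      ring
    rw [h1]
    obtain ⟨u, hu⟩ : ∃ u, u = Int.fract ((i : ℝ) * ξ + j * t) := ⟨_, rfl⟩
    obtain ⟨w, hw⟩ : ∃ w, w = Int.fract ((i' : ℝ) * ξ + j' * t) := ⟨_, rfl⟩
    rw [← hu, ← hw] at hf ⊢
    have hu0 : 0 ≤ u := hu ▸ Int.fract_nonneg _
    have hw0 : 0 ≤ w := hw ▸ Int.fract_nonneg _
    have h2 := Nat.floor_le (show 0 ≤ u * (n : ℝ) ^ 2 by positivity)
    have h3 := Nat.lt_floor_add_one (u * (n : ℝ) ^ 2)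
    have h4 := Nat.floor_le (show 0 ≤ w * (n : ℝ) ^ 2 by positivity)
    have h5 := Nat.lt_floor_add_one (w * (n : ℝ) ^ 2)
    rw [hf] at h2 h3
    rw [abs_lt]
    constructor
    · have h6 : (w - u) * (n : ℝ) ^ 2 < 1 := by nlinarith
      have h7 : w - u < 1 / (n : ℝ) ^ 2 := by
        rw [lt_div_iff₀ hn0]
        exact h6
      linarith
    · rw [lt_div_iff₀ hn0]
      nlinarith

theorem fin_rel (ξ t δ : ℝ) (hδ0 : 0 < δ) (hδ : δ < 1) (h : FinNear ξ t δ) : Rel ξ t := by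
  by_contra hno
  have hnz : ∀ a b c : ℤ, (b ≠ 0 ∨ c ≠ 0) → (a : ℝ) + b * ξ + c * t ≠ 0 := by
    intro a b c hbc h0
    exact hno ⟨a, b, c, Or.inr hbc, h0⟩
  unfold FinNear at h
  obtain ⟨m, hm, hm2⟩ : ∃ m : ℝ, 0 < m ∧ ∀ v : ℤ × ℤ × ℤ,
      ((v.1 : ℝ) + v.2.1 * ξ + v.2.2 * t ≠ 0 ∧
        |(v.1 : ℝ) + v.2.1 * ξ + v.2.2 * t| ≤ (HH v : ℝ) ^ (-(1 + δ))) → m ≤ LL ξ t v := by
    rcases Set.eq_empty_or_nonempty {v : ℤ × ℤ × ℤ | (v.1 : ℝ) + v.2.1 * ξ + v.2.2 * t ≠ 0 ∧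
      |(v.1 : ℝ) + v.2.1 * ξ + v.2.2 * t| ≤ (HH v : ℝ) ^ (-(1 + δ))} with he | hne
    · refine ⟨1, one_pos, fun v hv => ?_⟩
      have : v ∈ (∅ : Set (ℤ × ℤ × ℤ)) := by
        rw [← he]
        exact hv
      exact absurd this (Set.notMem_empty _)
    · obtain ⟨w, hw, hw2⟩ := Set.exists_min_image _ (LL ξ t) h hne
      exact ⟨LL ξ t w, abs_pos.2 hw.1, fun v hv => hw2 v hv⟩
  obtain ⟨C, hC⟩ : ∃ C, C = |ξ| + |t| + 1 := ⟨_, rfl⟩
  have hC1 : 1 ≤ C := by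
    have := abs_nonneg ξ
    have := abs_nonneg t
    linarith
  have h1 : ∀ᶠ n : ℕ in atTop, C ^ (1 + δ) ≤ (n : ℝ) ^ (1 - δ) :=
    ((tendsto_rpow_atTop (by linarith : 0 < 1 - δ)).comp
      (tendsto_natCast_atTop_atTop (R := ℝ))).eventually (eventually_ge_atTop _)
  have h2 : ∀ᶠ n : ℕ in atTop, 1 / m < (n : ℝ) :=
    (tendsto_natCast_atTop_atTop (R := ℝ)).eventually (eventually_gt_atTop _)
  obtain ⟨n, ⟨⟨hn1, hn2⟩, hn3⟩⟩ := ((h1.and h2).and (eventually_ge_atTop 1)).exists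
  obtain ⟨a, b, c, hbc, hb, hc, hv⟩ := dirichlet ξ t n hn3
  have hnR : (1 : ℝ) ≤ n := by exact_mod_cast hn3
  have hbR : |(b : ℝ)| ≤ n := by exact_mod_cast hb
  have hcR : |(c : ℝ)| ≤ n := by exact_mod_cast hc
  have hne := hnz a b c hbc
  have hn4 : 1 / (n : ℝ) ^ 2 ≤ 1 / n := by
    apply one_div_le_one_div_of_le (by linarith)
    nlinarith
  have hmn : 1 / (n : ℝ) < m := by
    rw [div_lt_iff₀ hm] at hn2
    rw [div_lt_iff₀ (by linarith)]
    linarith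
  have hnle : 1 / (n : ℝ) ≤ 1 := by
    rw [div_le_one (by linarith)]
    exact hnR
  have ha : |(a : ℝ)| ≤ C * n := by
    have e1 : (a : ℝ) = (a + b * ξ + c * t) - (b * ξ + c * t) := by ring
    have e2 := abs_sub ((a : ℝ) + b * ξ + c * t) (b * ξ + c * t)
    rw [← e1] at e2
    have e3 := abs_add_le ((b : ℝ) * ξ) (c * t)
    rw [abs_mul, abs_mul] at e3
    have e4 : |(b : ℝ)| * |ξ| ≤ n * |ξ| := mul_le_mul_of_nonneg_right hbR (abs_nonneg _)
    have e5 : |(c : ℝ)| * |t| ≤ n * |t| := mul_le_mul_of_nonneg_right hcR (abs_nonneg _)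
    rw [hC]
    nlinarith
  have hCn : (n : ℝ) ≤ C * n := by nlinarith
  have hH : (HH (a, b, c) : ℝ) ≤ C * n := by
    have hcc : ∀ a : ℤ, ((a.natAbs : ℕ) : ℝ) = |(a : ℝ)| := fun a => by
      rw [Nat.cast_natAbs, Int.cast_abs]
    have h8 : HH (a, b, c) = a.natAbs ∨ HH (a, b, c) = b.natAbs ∨ HH (a, b, c) = c.natAbs := by
      unfold HH
      simp only
      omega
    rcases h8 with h | h | h
    · rw [h, hcc]; exact ha
    · rw [h, hcc]; exact hbR.trans hCn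
    · rw [h, hcc]; exact hcR.trans hCn
  have hH1 : (1 : ℝ) ≤ HH (a, b, c) := by
    exact_mod_cast HH_pos (by
      intro h0
      simp only [Prod.mk_eq_zero] at h0
      omega)
  have hmem : |(a : ℝ) + b * ξ + c * t| ≤ (HH (a, b, c) : ℝ) ^ (-(1 + δ)) := by
    refine hv.le.trans ?_
    have e1 : (C * n) ^ (-(1 + δ)) ≤ (HH (a, b, c) : ℝ) ^ (-(1 + δ)) :=
      Real.rpow_le_rpow_of_nonpos (by linarith) hH (by linarith)
    refine le_trans ?_ e1
    rw [Real.rpow_neg (by positivity), one_div]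
    apply inv_anti₀ (by positivity)
    rw [Real.mul_rpow (by linarith) (by linarith)]
    calc C ^ (1 + δ) * (n : ℝ) ^ (1 + δ) ≤ (n : ℝ) ^ (1 - δ) * (n : ℝ) ^ (1 + δ) :=
          mul_le_mul_of_nonneg_right hn1 (by positivity)
      _ = (n : ℝ) ^ 2 := by
          rw [← Real.rpow_add (by linarith)]
          rw [show (1 - δ) + (1 + δ) = ((2 : ℕ) : ℝ) by push_cast; ring, Real.rpow_natCast]
  have h5 := hm2 (a, b, c) ⟨hne, hmem⟩
  have h6 : LL ξ t (a, b, c) = |(a : ℝ) + b * ξ + c * t| := rfl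
  linarith

end Pool.Agent.X262.ZO
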