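import Pool.Agent.X262.ZO.Sim

/-!
# Uniformly small linear forms beyond `(3 + √5) / 2` force a linear relation
-/

set_option autoImplicit false

namespace Pool.Agent.X262.ZO

open Filter

/-- uniformly small linear forms with exponent `τ` -/
def UnifLin (ξ t τ : ℝ) : Prop := ∀ᶠ H : ℝ in atTop, ∃ a b c : ℤ, (a ≠ 0 ∨ b ≠ 0 ∨ c ≠ 0) ∧
  |(a : ℝ)| ≤ H ∧ |(b : ℝ)| ≤ H ∧ |(c : ℝ)| ≤ H ∧ |(a : ℝ) + b * ξ + c * t| ≤ H ^ (-τ)

/-- the value of the linear form -/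
noncomputable def LL (ξ t : ℝ) (v : ℤ × ℤ × ℤ) : ℝ := |(v.1 : ℝ) + v.2.1 * ξ + v.2.2 * t|

/-- the height -/
def HH (v : ℤ × ℤ × ℤ) : ℕ := max v.1.natAbs (max v.2.1.natAbs v.2.2.natAbs)

lemma HH_le (v : ℤ × ℤ × ℤ) : |(v.1 : ℝ)| ≤ HH v ∧ |(v.2.1 : ℝ)| ≤ HH v ∧ |(v.2.2 : ℝ)| ≤ HH v := by
  have h : ∀ a : ℤ, ((a.natAbs : ℕ) : ℝ) = |(a : ℝ)| := fun a => by
    rw [Nat.cast_natAbs, Int.cast_abs]
  refine ⟨?_, ?_, ?_⟩
  · rw [← h]
    exact_mod_cast le_max_left _ _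
  · rw [← h]
    exact_mod_cast (le_max_left _ _).trans (le_max_right _ _)
  · rw [← h]
    exact_mod_cast (le_max_right _ _).trans (le_max_right _ _)

lemma HH_pos {v : ℤ × ℤ × ℤ} (hv : v ≠ 0) : 1 ≤ HH v := by
  by_contra h
  apply hv
  unfold HH at h
  obtain ⟨a, b, c⟩ := v
  simp only at h
  have h1 : a.natAbs = 0 := by omega
  have h2 : b.natAbs = 0 := by omega
  have h3 : c.natAbs = 0 := by omega
  rw [Int.natAbs_eq_zero] at h1 h2 h3
  simp [h1, h2, h3]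

/-- two best approximations are not proportional -/
lemma not_par' (ξ t : ℝ) (x y : ℤ × ℤ × ℤ) (hx : x ≠ 0) (hxy : HH x ≤ HH y)
    (hL : LL ξ t y < LL ξ t x) : cr x y ≠ 0 := by
  intro h0
  have hx1 := HH_pos hx
  obtain ⟨a, b, c⟩ := x
  obtain ⟨a', b', c'⟩ := y
  unfold cr at h0
  simp only [Prod.mk_eq_zero] at h0
  obtain ⟨h1, h2, h3⟩ := h0
  have h1R : (b : ℝ) * c' - c * b' = 0 := by exact_mod_cast h1
  have h2R : (c : ℝ) * a' - a * c' = 0 := by exact_mod_cast h2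
  have h3R : (a : ℝ) * b' - b * a' = 0 := by exact_mod_cast h3
  have hnn : 0 ≤ LL ξ t (a, b, c) := abs_nonneg _
  have hnn' : 0 ≤ LL ξ t (a', b', c') := abs_nonneg _
  have e1 : |(a' : ℝ)| * LL ξ t (a, b, c) = |(a : ℝ)| * LL ξ t (a', b', c') := by
    unfold LL
    simp only
    rw [← abs_mul, ← abs_mul]
    congr 1
    linear_combination (-ξ) * h3R + t * h2R
  have e2 : |(b' : ℝ)| * LL ξ t (a, b, c) = |(b : ℝ)| * LL ξ t (a', b', c') := by
    unfold LL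
    simp only
    rw [← abs_mul, ← abs_mul]
    congr 1
    linear_combination h3R - t * h1R
  have e3 : |(c' : ℝ)| * LL ξ t (a, b, c) = |(c : ℝ)| * LL ξ t (a', b', c') := by
    unfold LL
    simp only
    rw [← abs_mul, ← abs_mul]
    congr 1
    linear_combination (-1 : ℝ) * h2R + ξ * h1R
  obtain ⟨g1, g2, g3⟩ := HH_le (a, b, c)
  simp only at g1 g2 g3
  have hc : ∀ a : ℤ, ((a.natAbs : ℕ) : ℝ) = |(a : ℝ)| := fun a => by
    rw [Nat.cast_natAbs, Int.cast_abs]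
  have key : (HH (a', b', c') : ℝ) * LL ξ t (a, b, c) ≤ HH (a, b, c) * LL ξ t (a', b', c') := by
    have h4 : HH (a', b', c') = a'.natAbs ∨ HH (a', b', c') = b'.natAbs ∨
        HH (a', b', c') = c'.natAbs := by
      unfold HH
      simp only
      omega
    rcases h4 with h | h | h
    · rw [h, hc, e1]
      exact mul_le_mul_of_nonneg_right g1 hnn'
    · rw [h, hc, e2]
      exact mul_le_mul_of_nonneg_right g2 hnn'
    · rw [h, hc, e3]
      exact mul_le_mul_of_nonneg_right g3 hnn'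
  have k1 : (1 : ℝ) ≤ HH (a, b, c) := by exact_mod_cast hx1
  have k2 : (HH (a, b, c) : ℝ) ≤ HH (a', b', c') := by exact_mod_cast hxy
  nlinarith

/-- the determinant bound for linear forms -/
lemma det_bound' (l1 l2 l3 b1 b2 b3 c1 c2 c3 L1 H1 H2 H3 : ℝ) (h1 : 0 ≤ H1) (h12 : H1 ≤ H2)
    (h23 : H2 ≤ H3) (hl1 : |l1| ≤ L1) (hl2 : |l2| ≤ L1) (hl3 : |l3| ≤ L1)
    (hb1 : |b1| ≤ H1) (hb2 : |b2| ≤ H2) (hb3 : |b3| ≤ H3)
    (hc1 : |c1| ≤ H1) (hc2 : |c2| ≤ H2) (hc3 : |c3| ≤ H3) :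
    |l1 * (b2 * c3 - b3 * c2) + l2 * (b3 * c1 - b1 * c3) + l3 * (b1 * c2 - b2 * c1)| ≤
      6 * L1 * H2 * H3 := by
  have hp : ∀ x y X Y : ℝ, |x| ≤ X → |y| ≤ Y → |x * y| ≤ X * Y := fun x y X Y hx hy => by
    rw [abs_mul]
    exact mul_le_mul hx hy (abs_nonneg _) ((abs_nonneg _).trans hx)
  have hs : ∀ x y Z : ℝ, |x| ≤ Z → |y| ≤ Z → |x - y| ≤ 2 * Z := fun x y Z hx hy => by
    have := abs_sub x y
    linarith
  have hH2 : 0 ≤ H2 := h1.trans h12
  have hH3 : 0 ≤ H3 := hH2.trans h23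
  have hL1 : 0 ≤ L1 := (abs_nonneg _).trans hl1
  have e1 : |b2 * c3 - b3 * c2| ≤ 2 * (H2 * H3) := by
    apply hs
    · exact (hp _ _ _ _ hb2 hc3)
    · exact (hp _ _ _ _ hb3 hc2).trans (by nlinarith)
  have e2 : |b3 * c1 - b1 * c3| ≤ 2 * (H2 * H3) := by
    apply hs
    · exact (hp _ _ _ _ hb3 hc1).trans (by nlinarith)
    · exact (hp _ _ _ _ hb1 hc3).trans (by nlinarith)
  have e3 : |b1 * c2 - b2 * c1| ≤ 2 * (H2 * H3) := by
    apply hs
    · exact (hp _ _ _ _ hb1 hc2).trans (by nlinarith)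
    · exact (hp _ _ _ _ hb2 hc1).trans (by nlinarith)
  have f1 := hp _ _ _ _ hl1 e1
  have f2 := hp _ _ _ _ hl2 e2
  have f3 := hp _ _ _ _ hl3 e3
  have g1 := abs_add_le (l1 * (b2 * c3 - b3 * c2) + l2 * (b3 * c1 - b1 * c3))
    (l3 * (b1 * c2 - b2 * c1))
  have g2 := abs_add_le (l1 * (b2 * c3 - b3 * c2)) (l2 * (b3 * c1 - b1 * c3))
  nlinarith

/-- **Uniformly small linear forms in `1, ξ, t` beyond `(3 + √5) / 2`, `ξ` of irrationality
exponent two, force a linear relation.** -/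
theorem lin (ξ t : ℝ) (hξ : Meas1 ξ) (τ : ℝ) (hτ2 : 2 < τ)
    (hτ : 1 < (τ - 2) * (τ - 1)) (h : UnifLin ξ t τ) :
    ∃ a b c : ℤ, (a ≠ 0 ∨ b ≠ 0 ∨ c ≠ 0) ∧ (a : ℝ) + b * ξ + c * t = 0 := by
  by_contra hcon
  push Not at hcon
  have hnz : ∀ v : ℤ × ℤ × ℤ, v ≠ 0 → v.1 ≠ 0 ∨ v.2.1 ≠ 0 ∨ v.2.2 ≠ 0 := by
    intro v hv
    by_contra hh
    push Not at hh
    exact hv (Prod.ext hh.1 (Prod.ext hh.2.1 hh.2.2))
  have hLpos : ∀ v : ℤ × ℤ × ℤ, v ≠ 0 → 0 < LL ξ t v := fun v hv =>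
    abs_pos.2 (hcon _ _ _ (hnz v hv))
  have hτ0 : 0 < τ := by linarith
  have hex : ∀ ε : ℝ, 0 < ε → ∃ v : ℤ × ℤ × ℤ, v ≠ 0 ∧ LL ξ t v < ε := by
    intro ε hε
    have h1 : ∀ᶠ Q : ℝ in atTop, Q ^ (-τ) < ε :=
      (tendsto_rpow_neg_atTop hτ0).eventually (eventually_lt_nhds hε)
    obtain ⟨Q, ⟨a, b, c, hne, -, -, -, h2⟩, h4⟩ := (h.and h1).exists
    refine ⟨(a, b, c), ?_, lt_of_le_of_lt h2 h4⟩
    intro h0
    simp only [Prod.mk_eq_zero] at h0
    omega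
  have hfin : ∀ (B : ℕ) (M : ℝ), {v : ℤ × ℤ × ℤ | v ≠ 0 ∧ HH v ≤ B ∧ LL ξ t v ≤ M}.Finite := by
    intro B M
    refine ((Set.finite_Icc (-(B : ℤ)) B).prod ((Set.finite_Icc (-(B : ℤ)) B).prod
      (Set.finite_Icc (-(B : ℤ)) B))).subset ?_
    rintro ⟨a, b, c⟩ ⟨-, h2, -⟩
    unfold HH at h2
    simp only at h2
    simp only [Set.mem_prod, Set.mem_Icc]
    omega
  obtain ⟨x, hP, hL, hmin, hmono, htend⟩ := exists_seq (fun v : ℤ × ℤ × ℤ => v ≠ 0)
    HH (LL ξ t) hLpos hex hfin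
  have hanti : Antitone (fun k => LL ξ t (x k)) := antitone_nat_of_succ_le fun k => (hL k).le
  have hq1 : ∀ k, (1 : ℝ) ≤ HH (x k) := fun k => by exact_mod_cast HH_pos (hP k)
  have hqm : ∀ k, (HH (x k) : ℝ) ≤ HH (x (k + 1)) := fun k => by exact_mod_cast hmono k
  have htR : Tendsto (fun k => (HH (x k) : ℝ)) atTop atTop :=
    (tendsto_natCast_atTop_atTop (R := ℝ)).comp htend
  have htu : Tendsto (fun k => Real.log (HH (x k) : ℝ)) atTop atTop :=
    Real.tendsto_log_atTop.comp htR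
  have hpar : ∀ k, cr (x k) (x (k + 1)) ≠ 0 := fun k => not_par' ξ t _ _ (hP k) (hmono k) (hL k)
  have e2 := log_two_pos
  -- the uniform bound
  have hA' : ∀ᶠ k in atTop, 2 ≤ (HH (x (k + 1)) : ℝ) ∧
      LL ξ t (x k) ≤ ((HH (x (k + 1)) : ℝ) / 2) ^ (-τ) := by
    obtain ⟨Q0, hQ0⟩ := eventually_atTop.1 h
    have h1 : ∀ᶠ k in atTop, max 2 (Q0 + 1) ≤ (HH (x (k + 1)) : ℝ) :=
      (htR.comp (tendsto_add_atTop_nat 1)).eventually (eventually_ge_atTop _)
    filter_upwards [h1] with k hk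
    have hk2 : (2 : ℝ) ≤ HH (x (k + 1)) := (le_max_left _ _).trans hk
    have hk3 : Q0 + 1 ≤ (HH (x (k + 1)) : ℝ) := (le_max_right _ _).trans hk
    obtain ⟨a, b, c, hne, ha, hb, hc, h2⟩ := hQ0 ((HH (x (k + 1)) : ℝ) - 1) (by linarith)
    have hne' : (a, b, c) ≠ (0 : ℤ × ℤ × ℤ) := by
      intro h0
      simp only [Prod.mk_eq_zero] at h0
      omega
    have h4 : LL ξ t (x k) ≤ LL ξ t (a, b, c) := by
      by_contra hcon
      push Not at hcon
      have h5 := hmin k (a, b, c) hne' hcon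
      have h6 : (HH (x (k + 1)) : ℝ) ≤ HH (a, b, c) := by exact_mod_cast h5
      have hcc : ∀ a : ℤ, ((a.natAbs : ℕ) : ℝ) = |(a : ℝ)| := fun a => by
        rw [Nat.cast_natAbs, Int.cast_abs]
      have h7 : (HH (a, b, c) : ℝ) ≤ (HH (x (k + 1)) : ℝ) - 1 := by
        have h8 : HH (a, b, c) = a.natAbs ∨ HH (a, b, c) = b.natAbs ∨
            HH (a, b, c) = c.natAbs := by
          unfold HH
          simp only
          omega
        rcases h8 with h | h | h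
        · rw [h, hcc]; exact ha
        · rw [h, hcc]; exact hb
        · rw [h, hcc]; exact hc
      linarith
    refine ⟨hk2, (h4.trans h2).trans ?_⟩
    exact Real.rpow_le_rpow_of_nonpos (by linarith) (by linarith) (by linarith)
  have hA : ∀ᶠ k in atTop, τ * (Real.log (HH (x (k + 1)) : ℝ) - Real.log 2) ≤
      -Real.log (LL ξ t (x k)) := by
    filter_upwards [hA'] with k hk
    obtain ⟨hk2, h5⟩ := hk
    have h6 := Real.log_le_log (hLpos _ (hP k)) h5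
    rw [Real.log_rpow (by linarith), Real.log_div (by linarith) (by norm_num)] at h6
    linarith
  -- infinitely often three consecutive points are independent
  have hI : ∀ k0 : ℕ, ∃ k, k0 ≤ k ∧ dt (cr (x k) (x (k + 1))) (x (k + 2)) ≠ 0 := by
    intro k0
    by_contra hno
    push Not at hno
    obtain ⟨n, hn⟩ : ∃ n, n = cr (x k0) (x (k0 + 1)) := ⟨_, rfl⟩
    have hn0 : n ≠ 0 := hn ▸ hpar k0
    have hall : ∀ j, dt n (x (k0 + j)) = 0 ∧ dt n (x (k0 + j + 1)) = 0 := by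
      intro j
      induction j with
      | zero =>
        rw [hn]
        constructor
        · unfold dt cr
          simp only [add_zero]
          ring
        · unfold dt cr
          simp only [add_zero]
          ring
      | succ j ih =>
        refine ⟨ih.2, ?_⟩
        exact plane_step n _ _ _ ih.1 ih.2 (hpar _) (hno (k0 + j) (by omega))
    -- the cross products are nearly parallel to `(1, ξ, t)`
    have hsmall : ∀ δ : ℝ, 0 < δ → ∃ k, k0 ≤ k ∧ 2 * (HH (x (k + 1)) : ℝ) * LL ξ t (x k) < δ := by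
      intro δ hδ
      have h1 : Tendsto (fun y : ℝ => 4 * y ^ (-(τ - 1))) atTop (nhds (4 * 0)) :=
        (tendsto_rpow_neg_atTop (by linarith)).const_mul 4
      rw [mul_zero] at h1
      have h2 : Tendsto (fun k => (HH (x (k + 1)) : ℝ) / 2) atTop atTop :=
        (htR.comp (tendsto_add_atTop_nat 1)).atTop_div_const (by norm_num)
      have h3 := (h1.comp h2).eventually (eventually_lt_nhds hδ)
      obtain ⟨k, ⟨h4, ⟨h5, h6⟩⟩, h7⟩ := ((h3.and hA').and (eventually_ge_atTop k0)).exists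
      refine ⟨k, h7, lt_of_le_of_lt ?_ h4⟩
      have h8 : (0 : ℝ) < (HH (x (k + 1)) : ℝ) / 2 := by linarith
      calc 2 * (HH (x (k + 1)) : ℝ) * LL ξ t (x k) ≤
          2 * (HH (x (k + 1)) : ℝ) * ((HH (x (k + 1)) : ℝ) / 2) ^ (-τ) :=
            mul_le_mul_of_nonneg_left h6 (by positivity)
        _ = 4 * (((HH (x (k + 1)) : ℝ) / 2) ^ (1 : ℝ) * ((HH (x (k + 1)) : ℝ) / 2) ^ (-τ)) := by
            rw [Real.rpow_one]
            ring
        _ = 4 * ((HH (x (k + 1)) : ℝ) / 2) ^ (-(τ - 1)) := by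
            rw [← Real.rpow_add h8]
            congr 2
            ring
        _ ≤ _ := le_refl _
    have hnn := dt_self_pos hn0
    have hnnR : (0 : ℝ) < ((dt n n : ℤ) : ℝ) := by exact_mod_cast hnn
    -- `n` is parallel to `(1, ξ, t)`
    have hb : ∀ (i : ℕ) (f : ℤ × ℤ × ℤ → ℝ), (∀ (v : ℤ × ℤ × ℤ) (a b : ℤ),
        (a * v.1 = b * n.1 ∧ a * v.2.1 = b * n.2.1 ∧ a * v.2.2 = b * n.2.2) →
        (a : ℝ) * f v = b * f n) →
        (∀ k, k0 ≤ k → |f (cr (x k) (x (k + 1)))| ≤ 2 * (HH (x (k + 1)) : ℝ) * LL ξ t (x k)) →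
        f n = 0 := by
      intro i f hf hfb
      by_contra hfn
      have hfp : 0 < |f n| := abs_pos.2 hfn
      obtain ⟨k, hk, hk2⟩ := hsmall (|f n| / (dt n n : ℤ)) (by positivity)
      obtain ⟨j, rfl⟩ := Nat.exists_eq_add_of_le hk
      have h1 := normal n (x (k0 + j)) (x (k0 + j + 1)) (hall j).1 (hall j).2
      have h2 := hf _ _ _ h1
      have h3 : dt n (cr (x (k0 + j)) (x (k0 + j + 1))) ≠ 0 := by
        intro h0
        rw [h0] at h1
        apply hpar (k0 + j)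
        obtain ⟨g1, g2, g3⟩ := h1
        simp only [zero_mul, mul_eq_zero] at g1 g2 g3
        refine Prod.ext ?_ (Prod.ext ?_ ?_)
        · rcases g1 with g | g
          · omega
          · exact g
        · rcases g2 with g | g
          · omega
          · exact g
        · rcases g3 with g | g
          · omega
          · exact g
      have h4 : (1 : ℝ) ≤ |((dt n (cr (x (k0 + j)) (x (k0 + j + 1))) : ℤ) : ℝ)| := by
        have := Int.one_le_abs h3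
        exact_mod_cast this
      have h5 := hfb (k0 + j) (by omega)
      have h6 : |f n| ≤ ((dt n n : ℤ) : ℝ) * |f (cr (x (k0 + j)) (x (k0 + j + 1)))| := by
        rw [← abs_of_pos hnnR, ← abs_mul, h2, abs_mul]
        nlinarith
      rw [lt_div_iff₀ hnnR] at hk2
      nlinarith
    have hlow : ∀ k, |((x k).1 : ℝ) + (x k).2.1 * ξ + (x k).2.2 * t| = LL ξ t (x k) := fun k => rfl
    have hcross : ∀ k (a a' : ℝ), |a| ≤ HH (x k) → |a'| ≤ HH (x (k + 1)) →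
        |a' * ((x k).1 + (x k).2.1 * ξ + (x k).2.2 * t) -
          a * ((x (k + 1)).1 + (x (k + 1)).2.1 * ξ + (x (k + 1)).2.2 * t)| ≤
        2 * (HH (x (k + 1)) : ℝ) * LL ξ t (x k) := by
      intro k a a' ha ha'
      have g1 := abs_sub (a' * ((x k).1 + (x k).2.1 * ξ + (x k).2.2 * t))
        (a * ((x (k + 1)).1 + (x (k + 1)).2.1 * ξ + (x (k + 1)).2.2 * t))
      rw [abs_mul, abs_mul, hlow, hlow] at g1
      have g2 := (hLpos _ (hP k)).le
      have g3 := (hLpos _ (hP (k + 1))).le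
      have g4 : |a'| * LL ξ t (x k) ≤ HH (x (k + 1)) * LL ξ t (x k) :=
        mul_le_mul_of_nonneg_right ha' g2
      have g5 : |a| * LL ξ t (x (k + 1)) ≤ HH (x (k + 1)) * LL ξ t (x k) :=
        mul_le_mul (ha.trans (hqm k)) (hL k).le g3 (by linarith [hq1 (k + 1)])
      linarith
    have hf3 : (n.1 : ℝ) * ξ - n.2.1 = 0 := by
      refine hb 3 (fun v => (v.1 : ℝ) * ξ - v.2.1) ?_ ?_
      · rintro v a b ⟨g1, g2, g3⟩
        have g1R : (a : ℝ) * v.1 = b * n.1 := by exact_mod_cast g1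
        have g2R : (a : ℝ) * v.2.1 = b * n.2.1 := by exact_mod_cast g2
        linear_combination ξ * g1R - g2R
      · intro k hk
        refine le_trans (le_of_eq ?_) (hcross k (x k).2.2 (x (k + 1)).2.2 (HH_le _).2.2 (HH_le _).2.2)
        congr 1
        unfold cr
        push_cast
        ring
    have hf1 : (n.2.1 : ℝ) * t - n.2.2 * ξ = 0 := by
      refine hb 1 (fun v => (v.2.1 : ℝ) * t - v.2.2 * ξ) ?_ ?_
      · rintro v a b ⟨g1, g2, g3⟩
        have g2R : (a : ℝ) * v.2.1 = b * n.2.1 := by exact_mod_cast g2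
        have g3R : (a : ℝ) * v.2.2 = b * n.2.2 := by exact_mod_cast g3
        linear_combination t * g2R - ξ * g3R
      · intro k hk
        refine le_trans (le_of_eq ?_) (hcross k (x k).1 (x (k + 1)).1 (HH_le _).1 (HH_le _).1)
        congr 1
        unfold cr
        push_cast
        ring
    have hn1 : n.1 = 0 ∧ n.2.1 = 0 := by
      by_contra hh
      have h1 : n.2.1 ≠ 0 ∨ n.1 ≠ 0 := by tauto
      have h2 : ((-n.2.1 : ℤ) : ℝ) + n.1 * ξ ≠ 0 := hξ.ne (by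
        rcases h1 with h | h
        · left; omega
        · right; exact h)
      apply h2
      push_cast
      linarith
    have hn3 : n.2.2 ≠ 0 := by
      intro h0
      exact hn0 (Prod.ext hn1.1 (Prod.ext hn1.2 h0))
    have hξ0 : ξ ≠ 0 := by
      have h1 : ((0 : ℤ) : ℝ) + (1 : ℤ) * ξ ≠ 0 := hξ.ne (Or.inr one_ne_zero)
      push_cast at h1
      simpa using h1
    rw [hn1.2] at hf1
    have h3 : (n.2.2 : ℝ) * ξ = 0 := by
      push_cast at hf1
      linarith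
    rcases mul_eq_zero.1 h3 with h | h
    · exact hn3 (by exact_mod_cast h)
    · exact hξ0 h
  -- the measure of `ξ`
  obtain ⟨ε, hε⟩ : ∃ ε, ε = ((τ - 2) * (τ - 1) - 1) / (2 * τ) := ⟨_, rfl⟩
  have hε0 : 0 < ε := by
    rw [hε]
    apply div_pos <;> linarith
  have hετ : 2 * (ε * τ) = (τ - 2) * (τ - 1) - 1 := by
    rw [hε]
    field_simp
  have hε2 : ε < τ - 2 := by
    by_contra hcon
    push Not at hcon
    nlinarith
  obtain ⟨c, hc, hc2⟩ := hξ ε hε0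
  -- the last coordinate is not zero
  have hC : ∀ᶠ k in atTop, (x k).2.2 ≠ 0 := by
    obtain ⟨K, hK⟩ : ∃ K, K = τ * Real.log 2 - Real.log c := ⟨_, rfl⟩
    have h1 : ∀ᶠ k in atTop, K / (τ - 1 - ε) < Real.log (HH (x k) : ℝ) :=
      htu.eventually (eventually_gt_atTop _)
    filter_upwards [h1, hA] with k hk hAk
    intro h0
    have h2 : (x k).1 ≠ 0 ∨ (x k).2.1 ≠ 0 := by
      rcases hnz _ (hP k) with h | h | h
      · exact Or.inl h
      · exact Or.inr h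
      · exact absurd h0 h
    have h3 := hc2 _ _ h2 (HH (x k)) (hq1 k) (HH_le _).1 (HH_le _).2.1
    have h4 : |((x k).1 : ℝ) + (x k).2.1 * ξ| = LL ξ t (x k) := by
      unfold LL
      rw [h0]
      push_cast
      simp
    rw [h4] at h3
    have h5 := Real.log_le_log hc h3
    rw [Real.log_mul (by have := hq1 k; positivity) (hLpos _ (hP k)).ne',
      Real.log_rpow (by linarith [hq1 k])] at h5
    have h6 : Real.log (HH (x k) : ℝ) ≤ Real.log (HH (x (k + 1)) : ℝ) :=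
      Real.log_le_log (by linarith [hq1 k]) (hqm k)
    rw [div_lt_iff₀ (by linarith)] at hk
    nlinarith
  -- contradiction
  obtain ⟨K1, hK1⟩ : ∃ K1, K1 = τ * Real.log 2 + Real.log 6 := ⟨_, rfl⟩
  obtain ⟨K2, hK2⟩ : ∃ K2, K2 = (2 + ε + τ) * Real.log 2 - Real.log c := ⟨_, rfl⟩
  have hbig : ∀ᶠ k in atTop, ((τ - 2 - ε) * K1 + K2) / (ε * τ) < Real.log (HH (x (k + 1)) : ℝ) :=
    (htu.comp (tendsto_add_atTop_nat 1)).eventually (eventually_gt_atTop _)
  obtain ⟨k0, hk0⟩ := eventually_atTop.1 (((hbig.and hA).and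
    ((tendsto_add_atTop_nat 1).eventually hA)).and ((tendsto_add_atTop_nat 1).eventually hC))
  obtain ⟨k, hkk, hdet⟩ := hI k0
  obtain ⟨⟨⟨hk, hA0⟩, hA1⟩, hCk⟩ := hk0 k hkk
  have hl0 := hLpos _ (hP k)
  have hl1 := hLpos _ (hP (k + 1))
  have hl2 := hLpos _ (hP (k + 2))
  have hH1 : (0 : ℝ) < HH (x (k + 1)) := by linarith [hq1 (k + 1)]
  have hH2 : (0 : ℝ) < HH (x (k + 2)) := by linarith [hq1 (k + 2)]
  -- determinant
  have hD : 0 ≤ Real.log 6 + Real.log (LL ξ t (x k)) + Real.log (HH (x (k + 1)) : ℝ) +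
      Real.log (HH (x (k + 2)) : ℝ) := by
    have g1 : (1 : ℝ) ≤ |((dt (cr (x k) (x (k + 1))) (x (k + 2)) : ℤ) : ℝ)| := by
      have : 1 ≤ |dt (cr (x k) (x (k + 1))) (x (k + 2))| := Int.one_le_abs hdet
      exact_mod_cast this
    have g3 := det_bound' (((x k).1 : ℝ) + (x k).2.1 * ξ + (x k).2.2 * t)
      (((x (k + 1)).1 : ℝ) + (x (k + 1)).2.1 * ξ + (x (k + 1)).2.2 * t)
      (((x (k + 2)).1 : ℝ) + (x (k + 2)).2.1 * ξ + (x (k + 2)).2.2 * t)
      ((x k).2.1 : ℝ) ((x (k + 1)).2.1 : ℝ) ((x (k + 2)).2.1 : ℝ)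
      ((x k).2.2 : ℝ) ((x (k + 1)).2.2 : ℝ) ((x (k + 2)).2.2 : ℝ)
      (LL ξ t (x k)) (HH (x k)) (HH (x (k + 1))) (HH (x (k + 2)))
      (by linarith [hq1 k]) (hqm k) (hqm (k + 1)) (le_refl _) (hL k).le
      ((hL (k + 1)).le.trans (hL k).le) (HH_le _).2.1 (HH_le _).2.1 (HH_le _).2.1
      (HH_le _).2.2 (HH_le _).2.2 (HH_le _).2.2
    have g2 : |((dt (cr (x k) (x (k + 1))) (x (k + 2)) : ℤ) : ℝ)| ≤
        6 * LL ξ t (x k) * HH (x (k + 1)) * HH (x (k + 2)) := by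
      refine le_trans (le_of_eq ?_) g3
      congr 1
      unfold dt cr
      push_cast
      ring
    have g5 := Real.log_le_log one_pos (g1.trans g2)
    rw [Real.log_one, Real.log_mul (by positivity) hH2.ne', Real.log_mul (by positivity) hH1.ne',
      Real.log_mul (by norm_num) hl0.ne'] at g5
    linarith
  -- measure
  have hM : Real.log c ≤ (1 + ε) * (Real.log 2 + Real.log (HH (x (k + 1)) : ℝ) +
      Real.log (HH (x (k + 2)) : ℝ)) + (Real.log 2 + Real.log (HH (x (k + 2)) : ℝ) +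
      Real.log (LL ξ t (x (k + 1)))) := by
    obtain ⟨y, hy⟩ : ∃ y, y = x (k + 1) := ⟨_, rfl⟩
    obtain ⟨z, hz⟩ : ∃ z, z = x (k + 2) := ⟨_, rfl⟩
    have hyz : cr y z ≠ 0 := by rw [hy, hz]; exact hpar (k + 1)
    have hyc : y.2.2 ≠ 0 := by rw [hy]; exact hCk
    rw [← hy] at hH1 hl1 ⊢
    rw [← hz] at hH2 hl2 ⊢
    have hHyz : (HH y : ℝ) ≤ HH z := by rw [hy, hz]; exact hqm (k + 1)
    have hLyz : LL ξ t z ≤ LL ξ t y := by rw [hy, hz]; exact (hL (k + 1)).le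
    have hAB : (z.2.2 * y.1 - y.2.2 * z.1) ≠ 0 ∨ (z.2.2 * y.2.1 - y.2.2 * z.2.1) ≠ 0 := by
      by_contra hh
      push Not at hh
      obtain ⟨h1, h2⟩ := hh
      apply hyz
      unfold cr
      have h3 : y.2.2 * (y.1 * z.2.1 - y.2.1 * z.1) = 0 := by
        linear_combination y.2.1 * h1 - y.1 * h2
      have h4 : y.1 * z.2.1 - y.2.1 * z.1 = 0 := by
        rcases mul_eq_zero.1 h3 with h | h
        · exact absurd h hyc
        · exact h
      refine Prod.ext ?_ (Prod.ext ?_ h4)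
      · simp only [Prod.fst_zero]
        linarith
      · simp only [Prod.snd_zero, Prod.fst_zero]
        linarith
    have hyH := HH_le y
    have hzH := HH_le z
    have hp : ∀ a b : ℝ, |a| ≤ HH z → |b| ≤ HH y → |a * b| ≤ HH y * HH z := fun a b ha hb => by
      rw [abs_mul, mul_comm (HH y : ℝ)]
      exact mul_le_mul ha hb (abs_nonneg _) hH2.le
    have hs : ∀ a b Z : ℝ, |a| ≤ Z → |b| ≤ Z → |a - b| ≤ 2 * Z := fun a b Z ha hb => by
      have := abs_sub a b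
      linarith
    have h1 : |((z.2.2 * y.1 - y.2.2 * z.1 : ℤ) : ℝ)| ≤ 2 * (HH y * HH z) := by
      push_cast
      apply hs
      · exact hp _ _ hzH.2.2 hyH.1
      · rw [mul_comm]
        exact hp _ _ hzH.1 hyH.2.2
    have h2 : |((z.2.2 * y.2.1 - y.2.2 * z.2.1 : ℤ) : ℝ)| ≤ 2 * (HH y * HH z) := by
      push_cast
      apply hs
      · exact hp _ _ hzH.2.2 hyH.2.1
      · rw [mul_comm]
        exact hp _ _ hzH.2.1 hyH.2.2
    have hy1 : (1 : ℝ) ≤ HH y := by rw [hy]; exact hq1 _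
    have hz1 : (1 : ℝ) ≤ HH z := by rw [hz]; exact hq1 _
    have h3 := hc2 _ _ hAB (2 * (HH y * HH z)) (by nlinarith) h1 h2
    have h4 : |((z.2.2 * y.1 - y.2.2 * z.1 : ℤ) : ℝ) +
        ((z.2.2 * y.2.1 - y.2.2 * z.2.1 : ℤ) : ℝ) * ξ| ≤ 2 * HH z * LL ξ t y := by
      have g1 : ((z.2.2 * y.1 - y.2.2 * z.1 : ℤ) : ℝ) + ((z.2.2 * y.2.1 - y.2.2 * z.2.1 : ℤ) : ℝ) * ξ =
          z.2.2 * (y.1 + y.2.1 * ξ + y.2.2 * t) - y.2.2 * (z.1 + z.2.1 * ξ + z.2.2 * t) := by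
        push_cast
        ring
      rw [g1]
      have g2 := abs_sub ((z.2.2 : ℝ) * (y.1 + y.2.1 * ξ + y.2.2 * t))
        (y.2.2 * (z.1 + z.2.1 * ξ + z.2.2 * t))
      rw [abs_mul, abs_mul] at g2
      have g3 : |(z.2.2 : ℝ)| * |(y.1 : ℝ) + y.2.1 * ξ + y.2.2 * t| ≤ HH z * LL ξ t y :=
        mul_le_mul_of_nonneg_right hzH.2.2 (abs_nonneg _)
      have g4 : |(y.2.2 : ℝ)| * |(z.1 : ℝ) + z.2.1 * ξ + z.2.2 * t| ≤ HH z * LL ξ t y :=
        mul_le_mul (hyH.2.2.trans hHyz) hLyz (abs_nonneg _) hH2.le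
      linarith
    have h5 : c ≤ (2 * (HH y * HH z)) ^ (1 + ε) * (2 * HH z * LL ξ t y) :=
      h3.trans (mul_le_mul_of_nonneg_left h4 (by positivity))
    have h6 := Real.log_le_log hc h5
    rw [Real.log_mul (by positivity) (by positivity), Real.log_rpow (by positivity),
      Real.log_mul (by norm_num) (by positivity), Real.log_mul hH1.ne' hH2.ne',
      Real.log_mul (by positivity) hl1.ne', Real.log_mul (by norm_num) hH2.ne'] at h6
    linarith
  obtain ⟨u1, hu1⟩ : ∃ u, u = Real.log (HH (x (k + 1)) : ℝ) := ⟨_, rfl⟩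
  obtain ⟨u2, hu2⟩ : ∃ u, u = Real.log (HH (x (k + 2)) : ℝ) := ⟨_, rfl⟩
  obtain ⟨l0, hl0'⟩ : ∃ u, u = Real.log (LL ξ t (x k)) := ⟨_, rfl⟩
  obtain ⟨l1, hl1'⟩ : ∃ u, u = Real.log (LL ξ t (x (k + 1))) := ⟨_, rfl⟩
  have hA1' : τ * (u2 - Real.log 2) ≤ -l1 := by
    rw [hu2, hl1']
    exact hA1
  rw [← hu1, ← hl0'] at hA0
  rw [← hu1, ← hu2, ← hl0'] at hD
  rw [← hu1, ← hu2, ← hl1'] at hM
  rw [← hu1] at hk
  have s1 : (τ - 1) * u1 - K1 ≤ u2 := by
    rw [hK1]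
    linarith
  have s2 : (τ - 2 - ε) * u2 ≤ (1 + ε) * u1 + K2 := by
    rw [hK2]
    linarith
  have s3 : (τ - 2 - ε) * ((τ - 1) * u1 - K1) ≤ (τ - 2 - ε) * u2 :=
    mul_le_mul_of_nonneg_left s1 (by linarith)
  have s4 : (ε * τ) * u1 ≤ (τ - 2 - ε) * K1 + K2 := by
    have e1 : (τ - 2 - ε) * ((τ - 1) * u1 - K1) =
        ((τ - 2) * (τ - 1) - 1) * u1 + u1 - ε * τ * u1 + ε * u1 - (τ - 2 - ε) * K1 := by ring
    rw [e1, ← hετ] at s3
    linarith
  rw [div_lt_iff₀ (by positivity)] at hk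
  linarith

end Pool.Agent.X262.ZO
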