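import Mathlib

/-!
# Sequences of best approximations, and planes through integer points
-/

set_option autoImplicit false

namespace Pool.Agent.X262.ZO

open Filter

/-- a sequence of best approximations -/
theorem exists_seq {V : Type*} (P : V → Prop) (N : V → ℕ) (L : V → ℝ)
    (hpos : ∀ v, P v → 0 < L v) (hex : ∀ ε : ℝ, 0 < ε → ∃ v, P v ∧ L v < ε)
    (hfin : ∀ (B : ℕ) (M : ℝ), {v | P v ∧ N v ≤ B ∧ L v ≤ M}.Finite) :
    ∃ x : ℕ → V, (∀ k, P (x k)) ∧ (∀ k, L (x (k + 1)) < L (x k)) ∧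
      (∀ k v, P v → L v < L (x k) → N (x (k + 1)) ≤ N v) ∧ (∀ k, N (x k) ≤ N (x (k + 1))) ∧
      Tendsto (fun k => N (x k)) atTop atTop := by
  classical
  have key : ∀ v : {v // P v}, ∃ w : {v // P v}, L w.1 < L v.1 ∧
      ∀ u, P u → L u < L v.1 → N w.1 ≤ N u := by
    rintro ⟨v, hv⟩
    have h1 : ∃ n, ∃ w, P w ∧ L w < L v ∧ N w = n := by
      obtain ⟨w, hw, hw2⟩ := hex (L v) (hpos v hv)
      exact ⟨N w, w, hw, hw2, rfl⟩
    obtain ⟨w, hw, hw2, hw3⟩ := Nat.find_spec h1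
    refine ⟨⟨w, hw⟩, hw2, fun u hu hu2 => ?_⟩
    have h2 := Nat.find_min' h1 ⟨u, hu, hu2, rfl⟩
    show N w ≤ N u
    omega
  choose nx hnx1 hnx2 using key
  obtain ⟨v0, hv0, _⟩ := hex 1 one_pos
  let z : ℕ → {v // P v} := fun k => nx^[k] ⟨v0, hv0⟩
  have hz : ∀ k, z (k + 1) = nx (z k) := fun k => Function.iterate_succ_apply' _ _ _
  have hL : ∀ k, L (z (k + 1)).1 < L (z k).1 := fun k => by
    rw [hz]
    exact hnx1 _
  have hN : ∀ k, N (z (k + 1)).1 ≤ N (z (k + 2)).1 := fun k => by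
    have h1 := hnx2 (z k) (z (k + 2)).1 (z (k + 2)).2 ((hL (k + 1)).trans (hL k))
    rwa [← hz] at h1
  have hanti : StrictAnti (fun k => L (z (k + 1)).1) := strictAnti_nat_of_succ_lt fun k => hL (k + 1)
  have hmono : Monotone (fun k => N (z (k + 1)).1) := monotone_nat_of_le_succ hN
  refine ⟨fun k => (z (k + 1)).1, fun k => (z (k + 1)).2, fun k => hL (k + 1), ?_, hN, ?_⟩
  · intro k v hv hv2
    have h1 := hnx2 (z (k + 1)) v hv hv2
    rwa [← hz] at h1
  · refine tendsto_atTop_atTop_of_monotone hmono fun B => ?_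
    by_contra hcon
    push Not at hcon
    have hinj : Function.Injective (fun k => (z (k + 1)).1) := by
      intro i j hij
      exact hanti.injective (congrArg L hij)
    have h1 : (Set.range (fun k => (z (k + 1)).1)).Infinite := Set.infinite_range_of_injective hinj
    apply h1
    refine (hfin B (L (z 1).1)).subset ?_
    rintro _ ⟨k, rfl⟩
    exact ⟨(z (k + 1)).2, (hcon k).le, hanti.antitone (Nat.zero_le k)⟩

/-- cross product -/
def cr (x y : ℤ × ℤ × ℤ) : ℤ × ℤ × ℤ :=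
  (x.2.1 * y.2.2 - x.2.2 * y.2.1, x.2.2 * y.1 - x.1 * y.2.2, x.1 * y.2.1 - x.2.1 * y.1)

/-- scalar product -/
def dt (x y : ℤ × ℤ × ℤ) : ℤ := x.1 * y.1 + x.2.1 * y.2.1 + x.2.2 * y.2.2

lemma dt_self_pos {x : ℤ × ℤ × ℤ} (hx : x ≠ 0) : 0 < dt x x := by
  obtain ⟨a, b, c⟩ := x
  unfold dt
  simp only
  by_contra h
  apply hx
  have h1 : a * a = 0 := by nlinarith [mul_self_nonneg a, mul_self_nonneg b, mul_self_nonneg c]
  have h2 : b * b = 0 := by nlinarith [mul_self_nonneg a, mul_self_nonneg b, mul_self_nonneg c]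
  have h3 : c * c = 0 := by nlinarith [mul_self_nonneg a, mul_self_nonneg b, mul_self_nonneg c]
  simp only [mul_self_eq_zero] at h1 h2 h3
  simp [h1, h2, h3]

/-- a plane through `x`, `y` contains `z` if the three vectors are dependent -/
lemma plane_step (n x y z : ℤ × ℤ × ℤ) (hx : dt n x = 0) (hy : dt n y = 0) (hm : cr x y ≠ 0)
    (hd : dt (cr x y) z = 0) : dt n z = 0 := by
  have h0 := dt_self_pos hm
  have key : dt (cr x y) (cr x y) * dt n z = dt (cr x y) n * dt (cr x y) z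
      + dt n y * dt (cr (cr x y) x) z - dt n x * dt (cr (cr x y) y) z := by
    unfold dt cr
    ring
  rw [hx, hy, hd] at key
  have h1 : dt (cr x y) (cr x y) * dt n z = 0 := by
    rw [key]
    ring
  rcases mul_eq_zero.1 h1 with h | h
  · omega
  · exact h

/-- the cross product is a multiple of the normal vector -/
lemma normal (n x y : ℤ × ℤ × ℤ) (hx : dt n x = 0) (hy : dt n y = 0) :
    dt n n * (cr x y).1 = dt n (cr x y) * n.1 ∧ dt n n * (cr x y).2.1 = dt n (cr x y) * n.2.1 ∧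
      dt n n * (cr x y).2.2 = dt n (cr x y) * n.2.2 := by
  obtain ⟨n1, n2, n3⟩ := n
  obtain ⟨x1, x2, x3⟩ := x
  obtain ⟨y1, y2, y3⟩ := y
  unfold dt at *
  unfold cr
  simp only at *
  -- n × (n × m) = n (n·m) - m (n·n),  n × m = x (n·y) - y (n·x)
  refine ⟨?_, ?_, ?_⟩
  · linear_combination (n2 * y3 - n3 * y2) * hx + (n3 * x2 - n2 * x3) * hy
  · linear_combination (n3 * y1 - n1 * y3) * hx + (n1 * x3 - n3 * x1) * hy
  · linear_combination (n1 * y2 - n2 * y1) * hx + (n2 * x1 - n1 * x2) * hy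

end Pool.Agent.X262.ZO
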