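import Pool.Agent.X262.ZO.Seq

/-!
# Uniform simultaneous approximation beyond the golden ratio forces a linear relation
-/

set_option autoImplicit false

namespace Pool.Agent.X262.ZO

open Filter

/-- measure of irrationality, all exponents above one -/
def Meas1 (ξ : ℝ) : Prop := ∀ ε : ℝ, 0 < ε → ∃ c : ℝ, 0 < c ∧ ∀ A B : ℤ, (A ≠ 0 ∨ B ≠ 0) →
  ∀ H : ℝ, 1 ≤ H → |(A : ℝ)| ≤ H → |(B : ℝ)| ≤ H → c ≤ H ^ (1 + ε) * |(A : ℝ) + B * ξ|

/-- uniform simultaneous approximation with exponent `τ` -/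
def UnifSim (ξ t τ : ℝ) : Prop := ∀ᶠ Q : ℝ in atTop, ∃ q p r : ℤ, 1 ≤ q ∧ (q : ℝ) ≤ Q ∧
  |(q : ℝ) * ξ - p| ≤ Q ^ (-τ) ∧ |(q : ℝ) * t - r| ≤ Q ^ (-τ)

/-- the quality of a simultaneous approximation -/
noncomputable def LS (ξ t : ℝ) (v : ℤ × ℤ × ℤ) : ℝ :=
  max |(v.1 : ℝ) * ξ - v.2.1| |(v.1 : ℝ) * t - v.2.2|

lemma Meas1.ne {ξ : ℝ} (h : Meas1 ξ) {A B : ℤ} (hAB : A ≠ 0 ∨ B ≠ 0) : (A : ℝ) + B * ξ ≠ 0 := by
  obtain ⟨c, hc, hc2⟩ := h 1 one_pos
  intro h0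
  have h1 := hc2 A B hAB (max 1 (max |(A : ℝ)| |(B : ℝ)|)) (le_max_left _ _)
    (le_max_of_le_right (le_max_left _ _)) (le_max_of_le_right (le_max_right _ _))
  rw [h0, abs_zero, mul_zero] at h1
  linarith

lemma log_two_pos : 0 < Real.log 2 := Real.log_pos (by norm_num)

/-- the determinant bound -/
lemma det_bound (q1 q2 q3 a1 a2 a3 b1 b2 b3 L1 L2 L3 : ℝ) (h1 : 0 ≤ q1) (h12 : q1 ≤ q2)
    (h23 : q2 ≤ q3) (hL3 : 0 ≤ L3) (hL23 : L3 ≤ L2) (hL12 : L2 ≤ L1)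
    (ha1 : |a1| ≤ L1) (ha2 : |a2| ≤ L2) (ha3 : |a3| ≤ L3)
    (hb1 : |b1| ≤ L1) (hb2 : |b2| ≤ L2) (hb3 : |b3| ≤ L3) :
    |q1 * (a2 * b3 - a3 * b2) + q2 * (a3 * b1 - a1 * b3) + q3 * (a1 * b2 - a2 * b1)| ≤
      6 * q3 * L1 * L2 := by
  have hp : ∀ x y X Y : ℝ, |x| ≤ X → |y| ≤ Y → |x * y| ≤ X * Y := fun x y X Y hx hy => by
    rw [abs_mul]
    exact mul_le_mul hx hy (abs_nonneg _) ((abs_nonneg _).trans hx)
  have hs : ∀ x y Z : ℝ, |x| ≤ Z → |y| ≤ Z → |x - y| ≤ 2 * Z := fun x y Z hx hy => by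
    have := abs_sub x y
    linarith
  have hL2 : 0 ≤ L2 := hL3.trans hL23
  have hL1 : 0 ≤ L1 := hL2.trans hL12
  have hq2 : 0 ≤ q2 := h1.trans h12
  have hq3 : 0 ≤ q3 := hq2.trans h23
  have e1 : |a2 * b3 - a3 * b2| ≤ 2 * (L1 * L2) := by
    apply hs
    · exact (hp _ _ _ _ ha2 hb3).trans (by nlinarith)
    · exact (hp _ _ _ _ ha3 hb2).trans (by nlinarith)
  have e2 : |a3 * b1 - a1 * b3| ≤ 2 * (L1 * L2) := by
    apply hs
    · exact (hp _ _ _ _ ha3 hb1).trans (by nlinarith)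
    · exact (hp _ _ _ _ ha1 hb3).trans (by nlinarith)
  have e3 : |a1 * b2 - a2 * b1| ≤ 2 * (L1 * L2) := by
    apply hs
    · exact (hp _ _ _ _ ha1 hb2).trans (by nlinarith)
    · exact (hp _ _ _ _ ha2 hb1).trans (by nlinarith)
  have f1 : |q1 * (a2 * b3 - a3 * b2)| ≤ q3 * (2 * (L1 * L2)) := by
    apply hp _ _ _ _ _ e1
    rw [abs_of_nonneg h1]
    linarith
  have f2 : |q2 * (a3 * b1 - a1 * b3)| ≤ q3 * (2 * (L1 * L2)) := by
    apply hp _ _ _ _ _ e2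
    rw [abs_of_nonneg hq2]
    linarith
  have f3 : |q3 * (a1 * b2 - a2 * b1)| ≤ q3 * (2 * (L1 * L2)) := by
    apply hp _ _ _ _ _ e3
    rw [abs_of_nonneg hq3]
  have g1 := abs_add_le (q1 * (a2 * b3 - a3 * b2) + q2 * (a3 * b1 - a1 * b3))
    (q3 * (a1 * b2 - a2 * b1))
  have g2 := abs_add_le (q1 * (a2 * b3 - a3 * b2)) (q2 * (a3 * b1 - a1 * b3))
  nlinarith

/-- two best approximations are not proportional -/
lemma not_par (ξ t : ℝ) (x y : ℤ × ℤ × ℤ) (hx : 1 ≤ x.1) (hxy : x.1 ≤ y.1)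
    (hL : LS ξ t y < LS ξ t x) : cr x y ≠ 0 := by
  intro h0
  obtain ⟨q, p, r⟩ := x
  obtain ⟨q', p', r'⟩ := y
  unfold cr at h0
  simp only [Prod.mk_eq_zero] at h0
  obtain ⟨-, h2, h3⟩ := h0
  simp only at hx hxy
  unfold LS at hL
  simp only at hL
  have hqR : (1 : ℝ) ≤ q := by exact_mod_cast hx
  have hqq : (q : ℝ) ≤ q' := by exact_mod_cast hxy
  have h2R : (r : ℝ) * q' - q * r' = 0 := by exact_mod_cast h2
  have h3R : (q : ℝ) * p' - p * q' = 0 := by exact_mod_cast h3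
  have e1 : (q : ℝ) * |(q' : ℝ) * ξ - p'| = q' * |(q : ℝ) * ξ - p| := by
    rw [← abs_of_nonneg (show (0 : ℝ) ≤ q by linarith),
      ← abs_of_nonneg (show (0 : ℝ) ≤ q' by linarith), ← abs_mul, ← abs_mul,
      abs_of_nonneg (show (0 : ℝ) ≤ q by linarith), abs_of_nonneg (show (0 : ℝ) ≤ q' by linarith)]
    congr 1
    linear_combination -h3R
  have e2 : (q : ℝ) * |(q' : ℝ) * t - r'| = q' * |(q : ℝ) * t - r| := by
    rw [← abs_of_nonneg (show (0 : ℝ) ≤ q by linarith),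
      ← abs_of_nonneg (show (0 : ℝ) ≤ q' by linarith), ← abs_mul, ← abs_mul,
      abs_of_nonneg (show (0 : ℝ) ≤ q by linarith), abs_of_nonneg (show (0 : ℝ) ≤ q' by linarith)]
    congr 1
    linear_combination h2R
  have e3 : (q : ℝ) * max |(q' : ℝ) * ξ - p'| |(q' : ℝ) * t - r'| =
      q' * max |(q : ℝ) * ξ - p| |(q : ℝ) * t - r| := by
    rw [mul_max_of_nonneg _ _ (by linarith), mul_max_of_nonneg _ _ (by linarith), e1, e2]
  have h4 : 0 ≤ max |(q : ℝ) * ξ - p| |(q : ℝ) * t - r| :=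
    (abs_nonneg _).trans (le_max_left _ _)
  nlinarith

/-- **Uniform simultaneous approximation of `ξ, t` beyond the golden ratio, `ξ` of irrationality
exponent two, forces a linear relation.** -/
theorem sim (ξ t : ℝ) (hξ : Meas1 ξ) (τ : ℝ) (hτ0 : 0 < τ) (hτ1 : τ < 1)
    (hτ : 0 < τ ^ 2 + τ - 1) (h : UnifSim ξ t τ) :
    ∃ a b c : ℤ, (a ≠ 0 ∨ b ≠ 0 ∨ c ≠ 0) ∧ (a : ℝ) + b * ξ + c * t = 0 := by
  have hLpos : ∀ v : ℤ × ℤ × ℤ, 1 ≤ v.1 → 0 < LS ξ t v := by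
    rintro ⟨q, p, r⟩ hq
    simp only at hq
    have h1 : ((-p : ℤ) : ℝ) + q * ξ ≠ 0 := hξ.ne (Or.inr (by omega))
    refine lt_of_lt_of_le (abs_pos.2 ?_) (le_max_left _ _)
    intro h2
    apply h1
    push_cast
    simp only at h2
    linarith
  have hLnn : ∀ v : ℤ × ℤ × ℤ, 0 ≤ LS ξ t v := fun v => (abs_nonneg _).trans (le_max_left _ _)
  have hex : ∀ ε : ℝ, 0 < ε → ∃ v : ℤ × ℤ × ℤ, 1 ≤ v.1 ∧ LS ξ t v < ε := by
    intro ε hε
    have h1 : ∀ᶠ Q : ℝ in atTop, Q ^ (-τ) < ε :=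
      (tendsto_rpow_neg_atTop hτ0).eventually (eventually_lt_nhds hε)
    obtain ⟨Q, ⟨q, p, r, hq, hqQ, h2, h3⟩, h4⟩ := (h.and h1).exists
    exact ⟨(q, p, r), hq, lt_of_le_of_lt (max_le h2 h3) h4⟩
  have hfin : ∀ (B : ℕ) (M : ℝ),
      {v : ℤ × ℤ × ℤ | 1 ≤ v.1 ∧ v.1.natAbs ≤ B ∧ LS ξ t v ≤ M}.Finite := by
    intro B M
    obtain ⟨K, hK⟩ : ∃ K : ℕ, (B : ℝ) * (|ξ| + |t|) + |M| ≤ K := exists_nat_ge _
    refine ((Set.finite_Icc (-(B : ℤ)) B).prod ((Set.finite_Icc (-(K : ℤ)) K).prod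
      (Set.finite_Icc (-(K : ℤ)) K))).subset ?_
    rintro ⟨q, p, r⟩ ⟨h1, h2, h3⟩
    simp only at h1 h2
    have h4 : |(q : ℝ) * ξ - p| ≤ M := (le_max_left _ _).trans h3
    have h5 : |(q : ℝ) * t - r| ≤ M := (le_max_right _ _).trans h3
    have h6 : |(q : ℝ)| ≤ B := by
      have h8 : |q| ≤ (B : ℤ) := by
        rw [abs_le]
        constructor <;> omega
      exact_mod_cast h8
    have h7 : ∀ (s : ℝ) (p : ℤ), |s| ≤ |ξ| + |t| → |(q : ℝ) * s - p| ≤ M → p ∈ Set.Icc (-(K : ℤ)) K := by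
      intro s p hs hp
      have g1 : |(p : ℝ)| ≤ K := by
        have g2 : |(p : ℝ)| ≤ |(q : ℝ) * s| + |(q : ℝ) * s - p| := by
          have := abs_sub ((q : ℝ) * s) ((q : ℝ) * s - p)
          rwa [show (q : ℝ) * s - (q * s - p) = p by ring] at this
        have g3 : |(q : ℝ) * s| ≤ B * (|ξ| + |t|) := by
          rw [abs_mul]
          exact mul_le_mul h6 hs (abs_nonneg _) (Nat.cast_nonneg _)
        have g4 := le_abs_self M
        linarith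
      have g5 : |p| ≤ (K : ℤ) := by exact_mod_cast g1
      exact abs_le.1 g5
    refine ⟨⟨by simp only; omega, by simp only; omega⟩, h7 ξ p (by linarith [abs_nonneg t]) h4,
      h7 t r (by linarith [abs_nonneg ξ]) h5⟩
  obtain ⟨x, hP, hL, hmin, hmono, htend⟩ := exists_seq (fun v : ℤ × ℤ × ℤ => 1 ≤ v.1)
    (fun v => v.1.natAbs) (LS ξ t) hLpos hex hfin
  have hanti : Antitone (fun k => LS ξ t (x k)) := antitone_nat_of_succ_le fun k => (hL k).le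
  have hcast : ∀ k, (((x k).1.natAbs : ℕ) : ℝ) = ((x k).1 : ℝ) := fun k => by
    have h1 := hP k
    rw [Nat.cast_natAbs, abs_of_nonneg (by omega)]
  have hq1 : ∀ k, (1 : ℝ) ≤ (x k).1 := fun k => by exact_mod_cast hP k
  have hqm : ∀ k, ((x k).1 : ℝ) ≤ (x (k + 1)).1 := fun k => by
    rw [← hcast, ← hcast]
    exact_mod_cast hmono k
  have htR : Tendsto (fun k => ((x k).1 : ℝ)) atTop atTop := by
    have h1 := tendsto_natCast_atTop_atTop (R := ℝ) |>.comp htend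
    refine h1.congr fun k => ?_
    exact hcast k
  have htu : Tendsto (fun k => Real.log ((x k).1 : ℝ)) atTop atTop :=
    Real.tendsto_log_atTop.comp htR
  have hpar : ∀ k, cr (x k) (x (k + 1)) ≠ 0 := fun k =>
    not_par ξ t _ _ (hP k) (by exact_mod_cast hqm k) (hL k)
  -- the uniform bound
  have hA : ∀ᶠ k in atTop, τ * (Real.log ((x (k + 1)).1 : ℝ) - Real.log 2) ≤
      -Real.log (LS ξ t (x k)) := by
    obtain ⟨Q0, hQ0⟩ := eventually_atTop.1 h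
    have h1 : ∀ᶠ k in atTop, max 2 (Q0 + 1) ≤ ((x (k + 1)).1 : ℝ) :=
      (htR.comp (tendsto_add_atTop_nat 1)).eventually (eventually_ge_atTop _)
    filter_upwards [h1] with k hk
    have hk2 : (2 : ℝ) ≤ (x (k + 1)).1 := (le_max_left _ _).trans hk
    have hk3 : Q0 + 1 ≤ ((x (k + 1)).1 : ℝ) := (le_max_right _ _).trans hk
    obtain ⟨q, p, r, hq, hqQ, h2, h3⟩ := hQ0 (((x (k + 1)).1 : ℝ) - 1) (by linarith)
    have h4 : LS ξ t (x k) ≤ LS ξ t (q, p, r) := by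
      by_contra hcon
      push Not at hcon
      have h5 := hmin k (q, p, r) hq hcon
      have h6 : (((x (k + 1)).1.natAbs : ℕ) : ℝ) ≤ ((q.natAbs : ℕ) : ℝ) := by exact_mod_cast h5
      rw [hcast] at h6
      have h7 : ((q.natAbs : ℕ) : ℝ) = q := by
        rw [Nat.cast_natAbs, abs_of_nonneg (by omega)]
      rw [h7] at h6
      linarith
    have h5 : LS ξ t (x k) ≤ (((x (k + 1)).1 : ℝ) - 1) ^ (-τ) := h4.trans (max_le h2 h3)
    have h6 := Real.log_le_log (hLpos _ (hP k)) h5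
    rw [Real.log_rpow (by linarith)] at h6
    have h7 : Real.log (((x (k + 1)).1 : ℝ) / 2) ≤ Real.log (((x (k + 1)).1 : ℝ) - 1) :=
      Real.log_le_log (by linarith) (by linarith)
    rw [Real.log_div (by linarith) (by norm_num)] at h7
    nlinarith
  -- the lower bound
  set ε : ℝ := (τ ^ 2 + τ - 1) with hε
  obtain ⟨c, hc, hc2⟩ := hξ (ε / 2) (by positivity)
  set C : ℝ := |ξ| + LS ξ t (x 0) + 1 with hC
  have hC1 : 1 ≤ C := by
    have := hLnn (x 0)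
    have := abs_nonneg ξ
    linarith
  have hB : ∀ k, -Real.log (LS ξ t (x k)) ≤
      (1 + ε / 2) * (Real.log C + Real.log ((x k).1 : ℝ)) - Real.log c := by
    intro k
    have h0 : LS ξ t (x k) ≤ LS ξ t (x 0) := hanti (Nat.zero_le k)
    have h1 : |((x k).1 : ℝ) * ξ - (x k).2.1| ≤ LS ξ t (x k) := le_max_left _ _
    have hq := hq1 k
    have h2 : |(((-(x k).2.1 : ℤ)) : ℝ)| ≤ C * (x k).1 := by
      push_cast
      rw [abs_neg]
      have g2 : |((x k).2.1 : ℝ)| ≤ |((x k).1 : ℝ) * ξ| + |((x k).1 : ℝ) * ξ - (x k).2.1| := by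
        have := abs_sub (((x k).1 : ℝ) * ξ) (((x k).1 : ℝ) * ξ - (x k).2.1)
        rwa [show ((x k).1 : ℝ) * ξ - ((x k).1 * ξ - (x k).2.1) = (x k).2.1 by ring] at this
      rw [abs_mul, abs_of_nonneg (by linarith : (0 : ℝ) ≤ (x k).1)] at g2
      have g3 := hLnn (x 0)
      have g4 : LS ξ t (x 0) ≤ (x k).1 * LS ξ t (x 0) := by nlinarith
      rw [hC]
      nlinarith
    have h3 : |((x k).1 : ℝ)| ≤ C * (x k).1 := by
      rw [abs_of_nonneg (by linarith)]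
      nlinarith
    have hCq : 1 ≤ C * (x k).1 := by nlinarith
    have h4 := hc2 (-(x k).2.1) (x k).1 (Or.inr (by have := hP k; omega)) (C * (x k).1) hCq h2 h3
    have h5 : |(((-(x k).2.1 : ℤ)) : ℝ) + (x k).1 * ξ| ≤ LS ξ t (x k) := by
      refine le_trans (le_of_eq ?_) h1
      congr 1
      push_cast
      ring
    have h6 : c ≤ (C * (x k).1) ^ (1 + ε / 2) * LS ξ t (x k) :=
      h4.trans (mul_le_mul_of_nonneg_left h5 (by positivity))
    have h7 := Real.log_le_log hc h6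
    rw [Real.log_mul (by positivity) (hLpos _ (hP k)).ne', Real.log_rpow (by positivity),
      Real.log_mul (by linarith) (by linarith)] at h7
    linarith
  -- eventually three consecutive points are in a plane
  have hD : ∀ᶠ k in atTop, dt (cr (x k) (x (k + 1))) (x (k + 2)) = 0 := by
    obtain ⟨K, hK⟩ : ∃ K : ℝ, K = τ * Real.log 6 + 2 * τ ^ 2 * Real.log 2 +
        (1 - τ) * ((1 + ε / 2) * Real.log C - Real.log c + τ * Real.log 2) := ⟨_, rfl⟩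
    have h1 : ∀ᶠ k in atTop, K / (ε / 2) < Real.log ((x (k + 1)).1 : ℝ) :=
      (htu.comp (tendsto_add_atTop_nat 1)).eventually (eventually_gt_atTop _)
    filter_upwards [h1, hA, (tendsto_add_atTop_nat 1).eventually hA] with k hk hA0 hA1
    by_contra hne
    have g1 : (1 : ℝ) ≤ |((dt (cr (x k) (x (k + 1))) (x (k + 2)) : ℤ) : ℝ)| := by
      have : 1 ≤ |dt (cr (x k) (x (k + 1))) (x (k + 2))| := Int.one_le_abs hne
      exact_mod_cast this
    have hl0 := hLpos _ (hP k)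
    have hl1 := hLpos _ (hP (k + 1))
    have hl2 := hLpos _ (hP (k + 2))
    have g2 : |((dt (cr (x k) (x (k + 1))) (x (k + 2)) : ℤ) : ℝ)| ≤
        6 * ((x (k + 2)).1 : ℝ) * LS ξ t (x k) * LS ξ t (x (k + 1)) := by
      have g3 := det_bound ((x k).1 : ℝ) ((x (k + 1)).1 : ℝ) ((x (k + 2)).1 : ℝ)
        (((x k).1 : ℝ) * ξ - (x k).2.1) (((x (k + 1)).1 : ℝ) * ξ - (x (k + 1)).2.1)
        (((x (k + 2)).1 : ℝ) * ξ - (x (k + 2)).2.1)
        (((x k).1 : ℝ) * t - (x k).2.2) (((x (k + 1)).1 : ℝ) * t - (x (k + 1)).2.2)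
        (((x (k + 2)).1 : ℝ) * t - (x (k + 2)).2.2)
        (LS ξ t (x k)) (LS ξ t (x (k + 1))) (LS ξ t (x (k + 2)))
        (by linarith [hq1 k]) (hqm k) (hqm (k + 1)) hl2.le (hL (k + 1)).le (hL k).le
        (le_max_left _ _) (le_max_left _ _) (le_max_left _ _)
        (le_max_right _ _) (le_max_right _ _) (le_max_right _ _)
      refine le_trans (le_of_eq ?_) g3
      congr 1
      unfold dt cr
      push_cast
      ring
    have g4 := g1.trans g2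
    have g5 := Real.log_le_log one_pos g4
    have hq2' : (0 : ℝ) < (x (k + 2)).1 := by linarith [hq1 (k + 2)]
    rw [Real.log_one, Real.log_mul (by positivity) hl1.ne', Real.log_mul (by positivity) hl0.ne',
      Real.log_mul (by norm_num) hq2'.ne'] at g5
    have hB1 := hB (k + 1)
    have e2 := log_two_pos
    -- notation
    obtain ⟨u1, hu1⟩ : ∃ u, u = Real.log ((x (k + 1)).1 : ℝ) := ⟨_, rfl⟩
    obtain ⟨u2, hu2⟩ : ∃ u, u = Real.log ((x (k + 2)).1 : ℝ) := ⟨_, rfl⟩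
    obtain ⟨l0, hl0'⟩ : ∃ u, u = Real.log (LS ξ t (x k)) := ⟨_, rfl⟩
    obtain ⟨l1, hl1'⟩ : ∃ u, u = Real.log (LS ξ t (x (k + 1))) := ⟨_, rfl⟩
    rw [← hu1, ← hl0'] at hA0
    rw [← hu2, ← hl0', ← hl1'] at g5
    rw [← hu1, ← hl1'] at hB1
    rw [← hu1] at hk
    have hA1' : τ * (u2 - Real.log 2) ≤ -l1 := by
      rw [hu2, hl1']
      exact hA1
    have s1 : τ * u2 ≤ (1 + ε / 2) * (Real.log C + u1) - Real.log c + τ * Real.log 2 := by
      linarith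
    have s2 : 0 ≤ Real.log 6 + u2 - τ * u1 - τ * u2 + 2 * τ * Real.log 2 := by nlinarith
    have s3 : (1 - τ) * (τ * u2) ≤ (1 - τ) * ((1 + ε / 2) * (Real.log C + u1) - Real.log c +
        τ * Real.log 2) := mul_le_mul_of_nonneg_left s1 (by linarith)
    have s4 : 0 ≤ τ * (Real.log 6 + u2 - τ * u1 - τ * u2 + 2 * τ * Real.log 2) :=
      mul_nonneg hτ0.le s2
    have hε0 : 0 < ε := hτ
    have s5 : K < ε / 2 * u1 := by
      rw [div_lt_iff₀ (by positivity)] at hk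
      linarith
    have hu1p : 0 ≤ u1 := by
      rw [hu1]
      exact Real.log_nonneg (hq1 _)
    have s6 : (1 - τ) * (ε / 2 * u1) ≤ ε / 2 * u1 := by
      have : 0 ≤ ε / 2 * u1 := by positivity
      nlinarith
    have s7 : τ ^ 2 * u1 = ε * u1 + (1 - τ) * u1 := by
      rw [hε]
      ring
    nlinarith
  obtain ⟨k0, hk0⟩ := eventually_atTop.1 hD
  obtain ⟨n, hn⟩ : ∃ n, n = cr (x k0) (x (k0 + 1)) := ⟨_, rfl⟩
  have hn0 : n ≠ 0 := hn ▸ hpar k0
  have hall : ∀ j, dt n (x (k0 + j)) = 0 ∧ dt n (x (k0 + j + 1)) = 0 := by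
    intro j
    induction j with
    | zero =>
      rw [hn]
      constructor
      · unfold dt cr
        simp only [add_zero]
        ring
      · unfold dt cr
        simp only [add_zero]
        ring
    | succ j ih =>
      refine ⟨ih.2, ?_⟩
      exact plane_step n _ _ _ ih.1 ih.2 (hpar _) (hk0 (k0 + j) (by omega))
  refine ⟨n.1, n.2.1, n.2.2, ?_, ?_⟩
  · by_contra hcon
    push Not at hcon
    exact hn0 (Prod.ext hcon.1 (Prod.ext hcon.2.1 hcon.2.2))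
  · by_contra hne
    have hpos : 0 < |(n.1 : ℝ) + n.2.1 * ξ + n.2.2 * t| := abs_pos.2 hne
    have h1 : ∀ᶠ k in atTop, (|(n.2.1 : ℝ)| + |(n.2.2 : ℝ)|) * LS ξ t (x 0) /
        |(n.1 : ℝ) + n.2.1 * ξ + n.2.2 * t| < ((x k).1 : ℝ) :=
      htR.eventually (eventually_gt_atTop _)
    obtain ⟨k, hk, hkk⟩ := (h1.and (eventually_ge_atTop k0)).exists
    obtain ⟨j, rfl⟩ := Nat.exists_eq_add_of_le hkk
    have h2 := (hall j).1
    have h2R : (n.1 : ℝ) * (x (k0 + j)).1 + n.2.1 * (x (k0 + j)).2.1 + n.2.2 * (x (k0 + j)).2.2 = 0 := by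
      unfold dt at h2
      exact_mod_cast h2
    have h3 : |(n.1 : ℝ) + n.2.1 * ξ + n.2.2 * t| * (x (k0 + j)).1 ≤
        (|(n.2.1 : ℝ)| + |(n.2.2 : ℝ)|) * LS ξ t (x 0) := by
      have g0 : LS ξ t (x (k0 + j)) ≤ LS ξ t (x 0) := hanti (Nat.zero_le _)
      have g1 : |((x (k0 + j)).1 : ℝ) * ξ - (x (k0 + j)).2.1| ≤ LS ξ t (x (k0 + j)) := le_max_left _ _
      have g2 : |((x (k0 + j)).1 : ℝ) * t - (x (k0 + j)).2.2| ≤ LS ξ t (x (k0 + j)) := le_max_right _ _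
      have g3 : |(n.1 : ℝ) + n.2.1 * ξ + n.2.2 * t| * (x (k0 + j)).1 =
          |(n.2.1 : ℝ) * (((x (k0 + j)).1 : ℝ) * ξ - (x (k0 + j)).2.1) +
            n.2.2 * (((x (k0 + j)).1 : ℝ) * t - (x (k0 + j)).2.2)| := by
        rw [← abs_of_nonneg (show (0 : ℝ) ≤ (x (k0 + j)).1 by linarith [hq1 (k0 + j)]), ← abs_mul,
          abs_of_nonneg (show (0 : ℝ) ≤ (x (k0 + j)).1 by linarith [hq1 (k0 + j)])]
        congr 1
        linear_combination h2R
      rw [g3]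
      refine (abs_add_le _ _).trans ?_
      rw [abs_mul, abs_mul]
      have g4 : |(n.2.1 : ℝ)| * |((x (k0 + j)).1 : ℝ) * ξ - (x (k0 + j)).2.1| ≤
          |(n.2.1 : ℝ)| * LS ξ t (x 0) := mul_le_mul_of_nonneg_left (g1.trans g0) (abs_nonneg _)
      have g5 : |(n.2.2 : ℝ)| * |((x (k0 + j)).1 : ℝ) * t - (x (k0 + j)).2.2| ≤
          |(n.2.2 : ℝ)| * LS ξ t (x 0) := mul_le_mul_of_nonneg_left (g2.trans g0) (abs_nonneg _)
      linarith
    rw [div_lt_iff₀ hpos] at hk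
    linarith

end Pool.Agent.X262.ZO
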